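import Pool.Agent.Lib.MP_cb354f_nt.Count

/-!
The estimates.
-/

namespace Pool.Agent.Lib.MP_cb354f_nt

open ArithmeticFunction Filter

private theorem Ana_natLog_le {b X : ℕ} (hb : 2 ≤ b) (hX : 1 ≤ X) :
    (Nat.log b X : ℝ) * Real.log b ≤ Real.log X := by
  have h := Nat.pow_log_le_self b (x := X) (by omega)
  have h' : ((b : ℝ)) ^ (Nat.log b X) ≤ X := by exact_mod_cast h
  rw [← Real.log_pow]
  exact Real.log_le_log (by positivity) h'

/-- `σ(t) ≤ t (1 + log t)`. -/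
private theorem Ana_sigma_le {t : ℕ} (_ht : 0 < t) : (sigma 1 t : ℝ) ≤ t * (1 + Real.log t) := by
  rw [sigma_one_apply, ← Nat.sum_div_divisors]
  push_cast
  have h1 : ∑ d ∈ t.divisors, ((t / d : ℕ) : ℝ) ≤ ∑ d ∈ t.divisors, (t : ℝ) * ((d : ℝ))⁻¹ := by
    apply Finset.sum_le_sum
    intro d _
    exact (Nat.cast_div_le).trans (le_of_eq (div_eq_mul_inv _ _))
  have h2 : ∑ d ∈ t.divisors, ((d : ℝ))⁻¹ ≤ ∑ d ∈ Finset.Icc 1 t, ((d : ℝ))⁻¹ := by
    apply Finset.sum_le_sum_of_subset_of_nonneg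
    · intro d hd
      rw [Finset.mem_Icc]
      exact ⟨Nat.pos_of_mem_divisors hd, Nat.divisor_le hd⟩
    · intro d _ _
      positivity
  have h3 : ∑ d ∈ Finset.Icc 1 t, ((d : ℝ))⁻¹ = (harmonic t : ℝ) := by
    rw [harmonic_eq_sum_Icc]
    push_cast
    rfl
  have h4 := harmonic_le_one_add_log t
  refine h1.trans ?_
  rw [← Finset.mul_sum]
  apply mul_le_mul_of_nonneg_left _ (Nat.cast_nonneg t)
  rw [h3] at h2
  exact h2.trans h4

/-- The iterates grow slowly. -/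
private theorem Ana_iterate_le {X G : ℕ} (hG : ∀ t : ℕ, 0 < t → t ≤ X → sigma 1 t ≤ G * t) (n m : ℕ)
    (hn : 0 < n) (hGn : 1 ≤ G) (hX : G ^ m * n ≤ X) : ∀ i ≤ m, (sigma 1)^[i] n ≤ G ^ i * n ∧
      0 < (sigma 1)^[i] n := by
  intro i
  induction i with
  | zero => intro _; simpa using hn
  | succ i ih =>
    intro hi
    obtain ⟨h1, h2⟩ := ih (by omega)
    rw [Function.iterate_succ_apply']
    have h3 : (sigma 1)^[i] n ≤ X := by
      refine h1.trans (le_trans ?_ hX)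
      exact Nat.mul_le_mul_right _ (Nat.pow_le_pow_right hGn (by omega))
    constructor
    · calc sigma 1 ((sigma 1)^[i] n) ≤ G * (sigma 1)^[i] n := hG _ h2 h3
        _ ≤ G * (G ^ i * n) := Nat.mul_le_mul_left _ h1
        _ = G ^ (i + 1) * n := by ring
    · rw [sigma_one_apply]
      exact lt_of_lt_of_le h2 (Finset.single_le_sum (f := fun d : ℕ => d)
        (fun _ _ => Nat.zero_le _) (Nat.mem_divisors_self _ h2.ne'))

/-- The count in natural numbers. -/
theorem count_nat (m x X G : ℕ) {w y : ℕ} (hw : 2 ≤ w) (hy : 2 ≤ y) (hGn : 1 ≤ G)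
    (hG : ∀ t : ℕ, 0 < t → t ≤ X → sigma 1 t ≤ G * t) (hX : G ^ (m + 1) * x ≤ X)
    (h2 : (y + 1) ^ ((m + 1) * Nat.log y X) < 2 * y ^ ((m + 1) * Nat.log y X))
    (F : Finset ℕ) (hF : ∀ n ∈ F, 0 < n ∧ n ≤ x ∧ n ∣ (sigma 1)^[m + 1] n) :
    F.card ≤ (2 * G * (Nat.log 2 X + 1) ^ w *
      2 ^ (Nat.primeCounting y + Nat.log w X + Nat.log y X)) ^ (m + 1) := by
  classical
  have hXn : ∀ n ∈ F, G ^ (m + 1) * n ≤ X := fun n hn =>
    (Nat.mul_le_mul_left _ (hF n hn).2.1).trans hX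
  have hk : ∀ n ∈ F, (sigma 1)^[m + 1] n / n ∈ Finset.range (G ^ (m + 1) + 1) := by
    intro n hn
    obtain ⟨h1, h3, h4⟩ := hF n hn
    have h5 := (Ana_iterate_le hG n (m + 1) h1 hGn (hXn n hn) (m + 1) le_rfl).1
    rw [Finset.mem_range]
    exact Nat.lt_succ_of_le (Nat.div_le_of_le_mul (by rw [mul_comm]; exact h5))
  rw [Finset.card_eq_sum_card_fiberwise hk]
  set B := ((Nat.log 2 X + 1) ^ w * 2 ^ (Nat.primeCounting y + Nat.log w X)) ^ (m + 1) *
      2 ^ ((m + 1) * Nat.log y X) with hB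
  have hfib : ∀ k ∈ Finset.range (G ^ (m + 1) + 1),
      (F.filter (fun n => (sigma 1)^[m + 1] n / n = k)).card ≤ B := by
    intro k _
    refine count_iterate m k hw hy h2 _ ?_
    intro n hn
    rw [Finset.mem_filter] at hn
    obtain ⟨hn, hnk⟩ := hn
    obtain ⟨h1, h3, h4⟩ := hF n hn
    refine ⟨h1, ?_, ?_⟩
    · intro i hi
      have h5 := (Ana_iterate_le hG n (m + 1) h1 hGn (hXn n hn) i (by omega)).1
      refine h5.trans (le_trans ?_ (hXn n hn))
      exact Nat.mul_le_mul_right _ (Nat.pow_le_pow_right hGn (by omega))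
    · rw [← hnk, Nat.div_mul_cancel h4]
  calc ∑ k ∈ Finset.range (G ^ (m + 1) + 1), (F.filter (fun n => (sigma 1)^[m + 1] n / n = k)).card
      ≤ ∑ _k ∈ Finset.range (G ^ (m + 1) + 1), B := Finset.sum_le_sum hfib
    _ = (G ^ (m + 1) + 1) * B := by rw [Finset.sum_const, Finset.card_range, smul_eq_mul]
    _ ≤ ((2 * G) ^ (m + 1)) * B := by
        apply Nat.mul_le_mul_right
        have h6 : 1 ≤ G ^ (m + 1) := Nat.one_le_pow _ _ hGn
        have h7 : 2 ≤ 2 ^ (m + 1) := by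
          calc 2 = 2 ^ 1 := rfl
            _ ≤ 2 ^ (m + 1) := Nat.pow_le_pow_right (by norm_num) (by omega)
        rw [mul_pow]
        calc G ^ (m + 1) + 1 ≤ 2 * G ^ (m + 1) := by omega
          _ ≤ 2 ^ (m + 1) * G ^ (m + 1) := Nat.mul_le_mul_right _ h7
    _ = _ := by
        rw [hB]
        rw [show (m + 1) * Nat.log y X = Nat.log y X * (m + 1) by ring, pow_mul, ← mul_pow, ← mul_pow]
        congr 1
        rw [pow_add, pow_add]
        ring

/-- Elementary inequalities between `s` and `μ`. -/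
private theorem Ana_num {s μ : ℝ} (hs : 10 ≤ s) (hμ2 : 2 ≤ μ) (hμ : 8 * μ ^ 2 ≤ s) :
    100 ≤ s ^ 2 ∧ 10 * s ≤ s ^ 2 ∧ 100 * s ^ 2 ≤ s ^ 4 ∧ (2 * μ / 24) * (4 * μ) ≤ s ^ 2 ∧
      s * (2 * μ) ≤ s ^ 2 ∧ 4 * μ * s * (2 * μ) ≤ s ^ 2 ∧ 4 * μ ≤ s := by
  have h1 : 100 ≤ s ^ 2 := by nlinarith
  have h2 : 10 * s ≤ s ^ 2 := by nlinarith
  have h3 : 4 * μ ≤ s := by nlinarith
  have h4 : 4 * μ * s * (2 * μ) = s * (8 * μ ^ 2) := by ring
  have h5 : s * (8 * μ ^ 2) ≤ s * s := mul_le_mul_of_nonneg_left hμ (by linarith)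
  refine ⟨h1, h2, ?_, ?_, ?_, ?_, h3⟩
  · have : s ^ 4 = s ^ 2 * s ^ 2 := by ring
    rw [this]
    exact mul_le_mul_of_nonneg_right h1 (by positivity)
  · have : (2 * μ / 24) * (4 * μ) = μ ^ 2 / 3 := by ring
    rw [this]
    have h6 : 0 ≤ μ ^ 2 := sq_nonneg μ
    linarith
  · rw [sq]
    exact mul_le_mul_of_nonneg_left (by linarith) (by linarith)
  · rw [h4, sq s]
    exact h5

/-- The parameters for a large `x = exp (s ^ 2)`. -/
theorem count_large {s : ℝ} (hs : 10 ≤ s) (hμ : 8 * Real.log s ^ 2 ≤ s) (m : ℕ)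
    (hm : ((m + 1 : ℕ) : ℝ) ≤ 2 * Real.log s / 24) (F : Finset ℕ)
    (hF : ∀ n ∈ F, 0 < n ∧ (n : ℝ) ≤ Real.exp (s ^ 2) ∧ n ∣ (sigma 1)^[m + 1] n) :
    (F.card : ℝ) ≤ Real.exp (25 * (m + 1 : ℕ) * s ^ 2 / (2 * Real.log s)) := by
  set μ := Real.log s with hμdef
  set x := Real.exp (s ^ 2) with hx
  have hs0 : 0 < s := by linarith
  have hμ2 : 2 ≤ μ := by
    rw [hμdef, Real.le_log_iff_exp_le hs0]
    have h1 : Real.exp 2 = Real.exp 1 * Real.exp 1 := by rw [← Real.exp_add]; norm_num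
    have h2 := Real.exp_one_lt_d9
    have h3 := Real.exp_pos 1
    rw [h1]
    have h4 : Real.exp 1 * Real.exp 1 ≤ 3 * 3 :=
      mul_le_mul (by linarith) (by linarith) h3.le (by norm_num)
    linarith
  obtain ⟨hn1, hn2, hn3, hn4, hn5, hn6, hn7⟩ := Ana_num hs hμ2 hμ
  have hx1 : 1 ≤ x := Real.one_le_exp (by positivity)
  set X : ℕ := ⌈x ^ 2⌉₊ with hX
  have hX1 : 1 ≤ X := by
    rw [hX, Nat.one_le_ceil_iff]
    positivity
  have hXle : (X : ℝ) ≤ Real.exp 1 * x ^ 2 := by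
    have h1 := (Nat.ceil_lt_add_one (by positivity : 0 ≤ x ^ 2)).le
    have h2 : (2 : ℝ) ≤ Real.exp 1 := by
      have := Real.add_one_le_exp (1 : ℝ)
      linarith
    have h3 : 1 ≤ x ^ 2 := one_le_pow₀ hx1
    calc (X : ℝ) ≤ x ^ 2 + 1 := h1
      _ ≤ 2 * x ^ 2 := by linarith
      _ ≤ Real.exp 1 * x ^ 2 := by gcongr
  have hlogX : Real.log X ≤ 2 * s ^ 2 + 1 := by
    have h1 : Real.log X ≤ Real.log (Real.exp 1 * x ^ 2) :=
      Real.log_le_log (by exact_mod_cast hX1) hXle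
    rw [Real.log_mul (Real.exp_ne_zero _) (by positivity), Real.log_exp, Real.log_pow, hx,
      Real.log_exp] at h1
    push_cast at h1
    linarith
  have hlogX0 : 0 ≤ Real.log X := Real.log_nonneg (by exact_mod_cast hX1)
  set G : ℕ := ⌈1 + Real.log X⌉₊ with hG
  have hG1 : 1 ≤ G := by
    rw [hG, Nat.one_le_ceil_iff]
    linarith
  have hGle : (G : ℝ) ≤ s ^ 4 := by
    have h1 := (Nat.ceil_lt_add_one (by linarith : 0 ≤ 1 + Real.log X)).le
    have h2 : (G : ℝ) ≤ 2 * s ^ 2 + 3 := by linarith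
    linarith
  have hsig : ∀ t : ℕ, 0 < t → t ≤ X → sigma 1 t ≤ G * t := by
    intro t ht htX
    have h1 := Ana_sigma_le ht
    have h2 : Real.log t ≤ Real.log X := Real.log_le_log (by exact_mod_cast ht) (by exact_mod_cast htX)
    have h3 : 1 + Real.log X ≤ G := Nat.le_ceil _
    have h4 : (sigma 1 t : ℝ) ≤ ((G * t : ℕ) : ℝ) := by
      push_cast
      calc (sigma 1 t : ℝ) ≤ t * (1 + Real.log t) := h1
        _ ≤ t * G := by
            apply mul_le_mul_of_nonneg_left _ (Nat.cast_nonneg t)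
            linarith
        _ = G * t := mul_comm _ _
    exact_mod_cast h4
  have hlogG : Real.log G ≤ 4 * μ := by
    have h1 : Real.log G ≤ Real.log (s ^ 4) := Real.log_le_log (by exact_mod_cast hG1) hGle
    rw [Real.log_pow] at h1
    push_cast at h1
    exact h1
  have hlogG0 : 0 ≤ Real.log G := Real.log_nonneg (by exact_mod_cast hG1)
  have hGm : (G : ℝ) ^ (m + 1) ≤ x := by
    rw [← Real.exp_log (by positivity : (0 : ℝ) < (G : ℝ) ^ (m + 1)), Real.log_pow, hx]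
    apply Real.exp_le_exp.2
    calc ((m + 1 : ℕ) : ℝ) * Real.log G ≤ (2 * μ / 24) * (4 * μ) := by gcongr
      _ ≤ s ^ 2 := hn4
  have hXcond : G ^ (m + 1) * ⌊x⌋₊ ≤ X := by
    have h1 : ((G ^ (m + 1) * ⌊x⌋₊ : ℕ) : ℝ) ≤ (X : ℝ) := by
      push_cast
      calc (G : ℝ) ^ (m + 1) * (⌊x⌋₊ : ℝ) ≤ x * x := by
            apply mul_le_mul hGm (Nat.floor_le (by linarith)) (Nat.cast_nonneg _) (by linarith)
        _ = x ^ 2 := by ring
        _ ≤ X := Nat.le_ceil _
    exact_mod_cast h1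
  set w : ℕ := ⌊s⌋₊ with hw
  set y : ℕ := ⌊s ^ 2⌋₊ with hy
  have hwle : (w : ℝ) ≤ s := Nat.floor_le hs0.le
  have hwge : s - 1 ≤ (w : ℝ) := (Nat.sub_one_lt_floor s).le
  have hyle : (y : ℝ) ≤ s ^ 2 := Nat.floor_le (by positivity)
  have hyge : s ^ 2 - 1 ≤ (y : ℝ) := (Nat.sub_one_lt_floor (s ^ 2)).le
  have hw2 : 2 ≤ w := by
    have h1 : (9 : ℝ) ≤ w := by linarith
    have h2 : 9 ≤ w := by exact_mod_cast h1
    omega
  have hy2 : 2 ≤ y := by
    have h1 : (9 : ℝ) ≤ y := by linarith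
    have h2 : 9 ≤ y := by exact_mod_cast h1
    omega
  have hlogw : μ / 2 ≤ Real.log w := by
    have h1 : Real.sqrt s ≤ w := by
      refine le_trans ?_ hwge
      have h2 : Real.sqrt s ≤ s / 2 := by
        rw [Real.sqrt_le_left (by linarith)]
        have h5 : (s / 2) ^ 2 = s ^ 2 / 4 := by ring
        rw [h5]
        linarith
      linarith
    have h3 := Real.log_le_log (Real.sqrt_pos.2 hs0) h1
    rwa [Real.log_sqrt hs0.le] at h3
  have hlogy : μ ≤ Real.log y := by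
    apply Real.log_le_log hs0
    linarith
  -- bounds for the logarithms to the bases `2`, `w`, `y`
  have hL : (Nat.log 2 X : ℝ) * Real.log 2 ≤ 2 * s ^ 2 + 1 := by
    have h := Ana_natLog_le le_rfl hX1
    push_cast at h
    linarith
  have hlog2 := Real.log_two_gt_d9
  have hlog2' := Real.log_two_lt_d9
  have hL' : ((Nat.log 2 X + 1 : ℕ) : ℝ) ≤ s ^ 4 := by
    push_cast
    have h1 : (Nat.log 2 X : ℝ) ≤ 4 * s ^ 2 + 2 := by
      have h3 : (Nat.log 2 X : ℝ) * (1 / 2) ≤ (Nat.log 2 X : ℝ) * Real.log 2 :=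
        mul_le_mul_of_nonneg_left (by linarith) (Nat.cast_nonneg _)
      linarith
    linarith
  have hlogL : Real.log ((Nat.log 2 X + 1 : ℕ) : ℝ) ≤ 4 * μ := by
    have h1 := Real.log_le_log (by positivity) hL'
    rw [Real.log_pow] at h1
    push_cast at h1
    push_cast
    exact h1
  have hlogL0 : 0 ≤ Real.log ((Nat.log 2 X + 1 : ℕ) : ℝ) := Real.log_natCast_nonneg _
  set T := s ^ 2 / (2 * μ) with hT
  have hμ0 : 0 < μ := by linarith
  have hTs : s ≤ T := by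
    rw [hT, le_div_iff₀ (by linarith)]
    exact hn5
  have hT4 : 4 * μ * s ≤ T := by
    rw [hT, le_div_iff₀ (by linarith)]
    exact hn6
  have hTμ : T * (2 * μ) = s ^ 2 := by
    rw [hT]
    field_simp
  have hR1 : (Nat.log w X : ℝ) ≤ 12 * T := by
    have h := Ana_natLog_le hw2 hX1
    have h1 : (Nat.log w X : ℝ) * (μ / 2) ≤ 2 * s ^ 2 + 1 := by
      calc (Nat.log w X : ℝ) * (μ / 2) ≤ (Nat.log w X : ℝ) * Real.log w :=
            mul_le_mul_of_nonneg_left hlogw (Nat.cast_nonneg _)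
        _ ≤ Real.log X := h
        _ ≤ _ := hlogX
    have h2 : (Nat.log w X : ℝ) * (μ / 2) ≤ (12 * T) * (μ / 2) := by
      calc (Nat.log w X : ℝ) * (μ / 2) ≤ 2 * s ^ 2 + 1 := h1
        _ ≤ 3 * s ^ 2 := by linarith
        _ = (12 * T) * (μ / 2) := by rw [← hTμ]; ring
    exact le_of_mul_le_mul_right h2 (by linarith)
  have hR2 : (Nat.log y X : ℝ) ≤ 6 * T := by
    have h := Ana_natLog_le hy2 hX1
    have h1 : (Nat.log y X : ℝ) * μ ≤ 2 * s ^ 2 + 1 := by
      calc (Nat.log y X : ℝ) * μ ≤ (Nat.log y X : ℝ) * Real.log y :=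
            mul_le_mul_of_nonneg_left hlogy (Nat.cast_nonneg _)
        _ ≤ Real.log X := h
        _ ≤ _ := hlogX
    have h2 : (Nat.log y X : ℝ) * μ ≤ (6 * T) * μ := by
      calc (Nat.log y X : ℝ) * μ ≤ 2 * s ^ 2 + 1 := h1
        _ ≤ 3 * s ^ 2 := by linarith
        _ = (6 * T) * μ := by rw [← hTμ]; ring
    exact le_of_mul_le_mul_right h2 hμ0
  have hπ : (Nat.primeCounting y : ℝ) ≤ 4 * T := by
    have h := Chebyshev.pi_le_log4_mul_div (x := s ^ 2) (by linarith)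
    rw [Real.sqrt_sq hs0.le] at h
    have h1 : Real.log 4 = 2 * Real.log 2 := by
      rw [show (4 : ℝ) = 2 ^ 2 by norm_num, Real.log_pow]; norm_num
    have h2 : Real.log 4 * s ^ 2 / Real.log s = 4 * Real.log 2 * T := by
      rw [h1, hT, ← hμdef]
      field_simp
      ring
    rw [h2] at h
    have h3 : 4 * Real.log 2 * T ≤ 3 * T := by
      have h5 : 0 ≤ T := le_trans hs0.le hTs
      exact mul_le_mul_of_nonneg_right (by linarith) h5
    linarith
  -- the condition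
  have hcond : (y + 1) ^ ((m + 1) * Nat.log y X) < 2 * y ^ ((m + 1) * Nat.log y X) := by
    set R := (m + 1) * Nat.log y X with hR
    have hy0 : (0 : ℝ) < y := by exact_mod_cast (by omega : 0 < y)
    have h1 : (1 + 1 / (y : ℝ)) ^ R ≤ Real.exp (R / y) := by
      have h2 : 1 + 1 / (y : ℝ) ≤ Real.exp (1 / y) := by
        have := Real.add_one_le_exp (1 / (y : ℝ))
        linarith
      calc (1 + 1 / (y : ℝ)) ^ R ≤ (Real.exp (1 / y)) ^ R := pow_le_pow_left₀ (by positivity) h2 _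
        _ = Real.exp (R / y) := by
            rw [← Real.exp_nat_mul]
            congr 1
            ring
    have h3 : (R : ℝ) / y ≤ 1 / 2 := by
      rw [div_le_iff₀ hy0, hR]
      push_cast
      push_cast at hm
      have h4 : ((m : ℝ) + 1) * (Nat.log y X : ℝ) ≤ (2 * μ / 24) * (6 * T) := by
        apply mul_le_mul hm hR2 (Nat.cast_nonneg _) (by positivity)
      have h5 : (2 * μ / 24) * (6 * T) = s ^ 2 / 4 := by
        rw [← hTμ]; ring
      have h6 : s ^ 2 / 4 ≤ 1 / 2 * (y : ℝ) := by linarith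
      linarith
    have h4 : Real.exp (R / y) < 2 := by
      have h5 : Real.exp (R / y) ≤ Real.exp (1 / 2) := Real.exp_le_exp.2 h3
      have h6 : Real.exp (1 / 2) * Real.exp (1 / 2) = Real.exp 1 := by
        rw [← Real.exp_add]; norm_num
      have h7 := Real.exp_one_lt_d9
      by_contra hcon
      push Not at hcon
      have h8 : 2 * 2 ≤ Real.exp (1 / 2) * Real.exp (1 / 2) :=
        mul_le_mul (hcon.trans h5) (hcon.trans h5) (by norm_num) (Real.exp_pos _).le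
      linarith
    have h5 : ((y : ℝ) + 1) ^ R < 2 * (y : ℝ) ^ R := by
      have h6 : ((y : ℝ) + 1) ^ R = (1 + 1 / (y : ℝ)) ^ R * (y : ℝ) ^ R := by
        rw [← mul_pow]
        congr 1
        field_simp
      rw [h6]
      exact mul_lt_mul_of_pos_right (lt_of_le_of_lt h1 h4) (by positivity)
    exact_mod_cast h5
  -- the count
  have hcount := count_nat m ⌊x⌋₊ X G hw2 hy2 hG1 hsig hXcond hcond F (by
    intro n hn
    obtain ⟨h1, h3, h4⟩ := hF n hn
    exact ⟨h1, Nat.le_floor h3, h4⟩)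
  set E : ℕ := 2 * G * (Nat.log 2 X + 1) ^ w *
      2 ^ (Nat.primeCounting y + Nat.log w X + Nat.log y X) with hE
  have hE0 : 0 < E := by
    rw [hE]
    have : 0 < G := hG1
    positivity
  have hlogE : Real.log E ≤ 25 * T := by
    have h1 : (E : ℝ) = 2 * (G : ℝ) * (((Nat.log 2 X + 1 : ℕ) : ℝ)) ^ w *
        2 ^ (Nat.primeCounting y + Nat.log w X + Nat.log y X) := by
      rw [hE]; push_cast; ring
    have hG0 : (0 : ℝ) < G := by exact_mod_cast hG1
    rw [h1, Real.log_mul (by positivity) (by positivity), Real.log_mul (by positivity) (by positivity),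
      Real.log_mul (by norm_num) (by positivity), Real.log_pow, Real.log_pow]
    push_cast
    push_cast at hlogL hlogL0
    have h2 : (w : ℝ) * Real.log ((Nat.log 2 X : ℝ) + 1) ≤ s * (4 * μ) :=
      mul_le_mul hwle hlogL hlogL0 hs0.le
    have h3 : (Nat.primeCounting y + Nat.log w X + Nat.log y X : ℝ) * Real.log 2 ≤
        (4 * T + 12 * T + 6 * T) * 1 := by
      apply mul_le_mul (by linarith) (by linarith) (by linarith)
      have : 0 ≤ T := le_trans hs0.le hTs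
      linarith
    have h4 : 4 * μ ≤ T := hn7.trans hTs
    have h5 : (1 : ℝ) ≤ T := by linarith
    have h6 : s * (4 * μ) = 4 * μ * s := mul_comm _ _
    linarith
  have h9 : (F.card : ℝ) ≤ (E : ℝ) ^ (m + 1) := by exact_mod_cast hcount
  refine h9.trans ?_
  rw [← Real.exp_log (by positivity : (0 : ℝ) < (E : ℝ) ^ (m + 1)), Real.log_pow]
  apply Real.exp_le_exp.2
  calc ((m + 1 : ℕ) : ℝ) * Real.log E ≤ ((m + 1 : ℕ) : ℝ) * (25 * T) :=
        mul_le_mul_of_nonneg_left hlogE (Nat.cast_nonneg _)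
    _ = 25 * (m + 1 : ℕ) * s ^ 2 / (2 * μ) := by rw [hT]; ring

end Pool.Agent.Lib.MP_cb354f_nt
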