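import Mathlib

/-!
The count of the solutions of a cyclic system `σ(a i) = κ i * a (nxt i)` which extend a given system of unitary
divisors.
-/

namespace Pool.Agent.Lib.MP_cb354f_nt

open ArithmeticFunction

/-- Multiplication by a prime. -/
private theorem Core_sigma_mul_prime_le {p c : ℕ} (hp : p.Prime) : sigma 1 (p * c) ≤ (p + 1) * sigma 1 c := by
  rcases Nat.eq_zero_or_pos c with rfl | hc
  · simp
  rw [sigma_one_apply, sigma_one_apply]
  have hsub : (p * c).divisors ⊆ c.divisors ∪ c.divisors.image (fun d => p * d) := by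
    intro d hd
    rw [Nat.mem_divisors] at hd
    rw [Finset.mem_union, Finset.mem_image]
    by_cases hpd : p ∣ d
    · obtain ⟨d', rfl⟩ := hpd
      right
      exact ⟨d', Nat.mem_divisors.2 ⟨Nat.dvd_of_mul_dvd_mul_left hp.pos hd.1, hc.ne'⟩, rfl⟩
    · left
      have hcop : Nat.Coprime d p := ((Nat.Prime.coprime_iff_not_dvd hp).2 hpd).symm
      exact Nat.mem_divisors.2 ⟨hcop.dvd_of_dvd_mul_left hd.1, hc.ne'⟩
  calc ∑ d ∈ (p * c).divisors, d ≤ ∑ d ∈ c.divisors ∪ c.divisors.image (fun d => p * d), d :=
        Finset.sum_le_sum_of_subset hsub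
    _ ≤ ∑ d ∈ c.divisors, d + ∑ d ∈ c.divisors.image (fun d => p * d), d := by
        rw [← Finset.sum_union_inter]
        exact Nat.le_add_right _ _
    _ = ∑ d ∈ c.divisors, d + ∑ d ∈ c.divisors, p * d := by
        rw [Finset.sum_image]
        intro a _ b _ hab
        exact Nat.eq_of_mul_eq_mul_left hp.pos hab
    _ = (p + 1) * ∑ d ∈ c.divisors, d := by
        rw [← Finset.mul_sum]; ring

/-- Numbers all of whose primes are larger than `y`. -/
theorem Core_sigma_rough (y : ℕ) : ∀ b : ℕ, 0 < b → (∀ p, p.Prime → p ∣ b → y < p) →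
    sigma 1 b * y ^ cardFactors b ≤ b * (y + 1) ^ cardFactors b := by
  intro b
  refine induction_on_primes (motive := fun b => 0 < b → (∀ p, p.Prime → p ∣ b → y < p) →
    sigma 1 b * y ^ cardFactors b ≤ b * (y + 1) ^ cardFactors b) ?_ ?_ ?_ b
  · intro h
    exact absurd h (lt_irrefl 0)
  · intro _ _
    simp
  · intro p a hp ih hpos hall
    have ha : 0 < a := Nat.pos_of_mul_pos_left hpos |> fun h => by
      rcases Nat.eq_zero_or_pos a with rfl | h'
      · simp at hpos
      · exact h'
    have h1 := ih ha (fun q hq hqa => hall q hq (hqa.mul_left p))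
    have hyp : y < p := hall p hp (Dvd.intro a rfl)
    have hΩ : cardFactors (p * a) = cardFactors a + 1 := by
      rw [cardFactors_mul hp.ne_zero ha.ne', cardFactors_apply_prime hp, add_comm]
    rw [hΩ, pow_succ, pow_succ]
    have h2 : (p + 1) * y ≤ p * (y + 1) := by nlinarith
    calc sigma 1 (p * a) * (y ^ cardFactors a * y)
        ≤ ((p + 1) * sigma 1 a) * (y ^ cardFactors a * y) :=
          Nat.mul_le_mul_right _ (Core_sigma_mul_prime_le hp)
      _ = ((p + 1) * y) * (sigma 1 a * y ^ cardFactors a) := by ring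
      _ ≤ (p * (y + 1)) * (a * (y + 1) ^ cardFactors a) := Nat.mul_le_mul h2 h1
      _ = p * a * ((y + 1) ^ cardFactors a * (y + 1)) := by ring

/-- `a` solves the system and extends the unitary divisors `S`. -/
def Good {ι : Type} [Fintype ι] (nxt : Equiv.Perm ι) (κ : ι → ℕ) (y : ℕ) (S : ι → ℕ) (N : ℕ)
    (a : ι → ℕ) : Prop :=
  (∀ i, 0 < a i) ∧ (∀ i, sigma 1 (a i) = κ i * a (nxt i)) ∧ ∃ b : ι → ℕ, (∀ i, a i = S i * b i) ∧
    (∀ i, Nat.Coprime (S i) (b i)) ∧ (∀ i, ∀ p, p.Prime → p ∣ b i → y < p) ∧
    ∑ i, cardFactors (b i) ≤ N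

private theorem Core_lt_sigma {b : ℕ} (hb : 0 < b) (h1 : b ≠ 1) : b < sigma 1 b := by
  rw [sigma_one_apply]
  have h : ({1, b} : Finset ℕ) ⊆ b.divisors := by
    intro d hd
    rw [Finset.mem_insert, Finset.mem_singleton] at hd
    rcases hd with rfl | rfl
    · exact Nat.one_mem_divisors.2 hb.ne'
    · exact Nat.mem_divisors_self d hb.ne'
  have h2 := Finset.sum_le_sum_of_subset (f := fun d : ℕ => d) h
  rw [Finset.sum_pair (Ne.symm h1)] at h2
  omega

private theorem Core_le_sigma {b : ℕ} (hb : 0 < b) : b ≤ sigma 1 b := by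
  rcases eq_or_ne b 1 with rfl | h
  · simp
  · exact (Core_lt_sigma hb h).le

/-- If all quotients are integers, the system is known. -/
private theorem Core_case1 {ι : Type} [Fintype ι] {nxt : Equiv.Perm ι} {κ : ι → ℕ} {y N0 : ℕ}
    (hy : 0 < y) (h2 : (y + 1) ^ N0 < 2 * y ^ N0) {N : ℕ} (hN : N ≤ N0) {S a : ι → ℕ}
    (hS : ∀ i, sigma 1 (S i) ∣ κ i * S (nxt i)) (ha : Good nxt κ y S N a) : a = S := by
  obtain ⟨hpos, hsys, b, hab, hcop, hrough, hΩ⟩ := ha
  choose q hq using hS
  have hSpos : ∀ i, 0 < S i := fun i => by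
    have := hpos i
    rw [hab i] at this
    exact Nat.pos_of_mul_pos_right this |> fun h => by
      rcases Nat.eq_zero_or_pos (S i) with h0 | h'
      · rw [h0] at this; simp at this
      · exact h'
  have hbpos : ∀ i, 0 < b i := fun i => by
    have := hpos i
    rw [hab i] at this
    rcases Nat.eq_zero_or_pos (b i) with h0 | h'
    · rw [h0] at this; simp at this
    · exact h'
  have hσS : ∀ i, 0 < sigma 1 (S i) := fun i => lt_of_lt_of_le (hSpos i) (Core_le_sigma (hSpos i))
  have h3 : ∀ i, sigma 1 (b i) = q i * b (nxt i) := by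
    intro i
    have h := hsys i
    rw [hab i, hab (nxt i), isMultiplicative_sigma.map_mul_of_coprime (hcop i)] at h
    have h' : sigma 1 (S i) * sigma 1 (b i) = sigma 1 (S i) * (q i * b (nxt i)) := by
      rw [h, ← mul_assoc, hq i]; ring
    exact Nat.eq_of_mul_eq_mul_left (hσS i) h'
  have h4 : ∏ i, sigma 1 (b i) = (∏ i, q i) * ∏ i, b i := by
    rw [Finset.prod_congr rfl (fun i _ => h3 i), Finset.prod_mul_distrib, Equiv.prod_comp nxt b]
  set t := ∑ i, cardFactors (b i) with ht
  have h5 : (∏ i, sigma 1 (b i)) * y ^ t ≤ (∏ i, b i) * (y + 1) ^ t := by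
    rw [ht, ← Finset.prod_pow_eq_pow_sum, ← Finset.prod_pow_eq_pow_sum, ← Finset.prod_mul_distrib,
      ← Finset.prod_mul_distrib]
    exact Finset.prod_le_prod' (fun i _ => Core_sigma_rough y (b i) (hbpos i) (hrough i))
  have hBpos : 0 < ∏ i, b i := Finset.prod_pos (fun i _ => hbpos i)
  have h6 : (y + 1) ^ t < 2 * y ^ t := by
    by_contra hcon
    push Not at hcon
    have h7 : 2 * y ^ N0 ≤ (y + 1) ^ N0 := by
      have e1 : N0 = t + (N0 - t) := by omega
      rw [e1, pow_add, pow_add, ← mul_assoc]
      exact Nat.mul_le_mul hcon (Nat.pow_le_pow_left (Nat.le_succ y) _)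
    omega
  have h8 : (∏ i, q i) < 2 := by
    by_contra hcon
    push Not at hcon
    rw [h4] at h5
    have h9 : (∏ i, b i) * (2 * y ^ t) ≤ (∏ i, b i) * (y + 1) ^ t := by
      calc (∏ i, b i) * (2 * y ^ t) = 2 * (∏ i, b i) * y ^ t := by ring
        _ ≤ (∏ i, q i) * (∏ i, b i) * y ^ t :=
            Nat.mul_le_mul_right _ (Nat.mul_le_mul_right _ hcon)
        _ ≤ _ := h5
    have h10 := Nat.le_of_mul_le_mul_left h9 hBpos
    omega
  have h9 : ∏ i, sigma 1 (b i) ≤ ∏ i, b i := by
    rw [h4]
    calc (∏ i, q i) * ∏ i, b i ≤ 1 * ∏ i, b i := Nat.mul_le_mul_right _ (by omega)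
      _ = _ := one_mul _
  have h10 : ∀ i, b i = 1 := by
    intro j
    by_contra hj
    have : ∏ i, b i < ∏ i, sigma 1 (b i) := by
      refine Finset.prod_lt_prod (fun i _ => hbpos i) (fun i _ => Core_le_sigma (hbpos i))
        ⟨j, Finset.mem_univ j, Core_lt_sigma (hbpos j) hj⟩
    omega
  funext i
  rw [hab i, h10 i, mul_one]

/-- The number of the solutions which extend a given system of unitary divisors. -/
theorem Core_count {ι : Type} [Fintype ι] [DecidableEq ι] (nxt : Equiv.Perm ι) (κ : ι → ℕ)
    {y N0 : ℕ} (hy : 0 < y) (h2 : (y + 1) ^ N0 < 2 * y ^ N0) :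
    ∀ N, N ≤ N0 → ∀ (S : ι → ℕ) (F : Finset (ι → ℕ)), (∀ a ∈ F, Good nxt κ y S N a) →
      F.card ≤ 2 ^ N := by
  intro N
  induction N using Nat.strong_induction_on with
  | _ N ih =>
  intro hN S F hF
  by_cases hS : ∀ i, sigma 1 (S i) ∣ κ i * S (nxt i)
  · have h1 : F.card ≤ 1 := by
      rw [Finset.card_le_one]
      intro a ha b hb
      rw [Core_case1 hy h2 hN hS (hF a ha), Core_case1 hy h2 hN hS (hF b hb)]
    exact h1.trans Nat.one_le_two_pow
  · push Not at hS
    obtain ⟨i, hi⟩ := hS
    set j := nxt i with hj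
    set g := Nat.gcd (sigma 1 (S i)) (κ i * S j) with hg
    by_cases hS0 : S i = 0
    · have : F = ∅ := by
        rw [Finset.eq_empty_iff_forall_notMem]
        intro a ha
        obtain ⟨hpos, -, b, hab, -⟩ := hF a ha
        have := hpos i
        rw [hab i, hS0] at this
        simp at this
      rw [this]; simp
    have hσS : 0 < sigma 1 (S i) :=
      lt_of_lt_of_le (Nat.pos_of_ne_zero hS0) (Core_le_sigma (Nat.pos_of_ne_zero hS0))
    have hgpos : 0 < g := Nat.gcd_pos_of_pos_left _ hσS
    obtain ⟨v, hv⟩ : g ∣ sigma 1 (S i) := Nat.gcd_dvd_left _ _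
    obtain ⟨u, hu⟩ : g ∣ κ i * S j := Nat.gcd_dvd_right _ _
    have hvu : Nat.Coprime v u := by
      have h := Nat.coprime_div_gcd_div_gcd (m := sigma 1 (S i)) (n := κ i * S j) hgpos
      rw [← hg] at h
      rw [hv, hu, Nat.mul_div_cancel_left _ hgpos, Nat.mul_div_cancel_left _ hgpos] at h
      exact h
    have hv1 : v ≠ 1 := by
      intro h
      apply hi
      rw [hv, h, mul_one, hu]
      exact Dvd.intro u rfl
    set p := v.minFac with hp
    have hpp : p.Prime := Nat.minFac_prime hv1
    have hpv : p ∣ v := Nat.minFac_dvd v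
    -- `p` divides `b j`
    have hpb : ∀ a ∈ F, ∀ b : ι → ℕ, (∀ i, a i = S i * b i) → (∀ i, Nat.Coprime (S i) (b i)) →
        p ∣ b j := by
      intro a ha b hab hcop
      obtain ⟨-, hsys, -⟩ := hF a ha
      have h := hsys i
      rw [hab i, ← hj, hab j, isMultiplicative_sigma.map_mul_of_coprime (hcop i), ← mul_assoc, hu,
        hv, mul_assoc, mul_assoc] at h
      have h' := Nat.eq_of_mul_eq_mul_left hgpos h
      have h'' : v ∣ u * b j := Dvd.intro _ h'
      exact hpv.trans (hvu.dvd_of_dvd_mul_left h'')
    -- fibres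
    have hfib : ∀ a ∈ F, (a j).factorization p - 1 ∈ Finset.range N := by
      intro a ha
      obtain ⟨hpos, hsys, b, hab, hcop, hrough, hΩ⟩ := hF a ha
      have h1 := hpb a ha b hab hcop
      have hbj : b j ≠ 0 := by
        intro h0
        have := hpos j
        rw [hab j, h0] at this
        simp at this
      have hSj : S j ≠ 0 := by
        intro h0
        have := hpos j
        rw [hab j, h0] at this
        simp at this
      have h3 : (a j).factorization p = (b j).factorization p := by
        rw [hab j, Nat.factorization_mul hSj hbj, Finsupp.add_apply]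
        have : (S j).factorization p = 0 := by
          apply Nat.factorization_eq_zero_of_not_dvd
          intro hps
          exact hpp.one_lt.ne' (Nat.eq_one_of_dvd_coprimes (hcop j) hps h1)
        rw [this, zero_add]
      have h4 : (b j).factorization p ≤ cardFactors (b j) := by
        rw [cardFactors_eq_sum_factorization]
        by_cases hmem : p ∈ (b j).factorization.support
        · exact Finset.single_le_sum (f := fun q => (b j).factorization q)
            (fun _ _ => Nat.zero_le _) hmem
        · rw [Finsupp.notMem_support_iff.1 hmem]; exact Nat.zero_le _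
      have h5 : cardFactors (b j) ≤ ∑ i, cardFactors (b i) :=
        Finset.single_le_sum (f := fun i => cardFactors (b i)) (fun _ _ => Nat.zero_le _)
          (Finset.mem_univ j)
      have h6 : 0 < (b j).factorization p := hpp.factorization_pos_of_dvd hbj h1
      rw [Finset.mem_range]
      omega
    rw [Finset.card_eq_sum_card_fiberwise hfib]
    have hbound : ∀ e ∈ Finset.range N,
        (F.filter (fun a => (a j).factorization p - 1 = e)).card ≤ 2 ^ (N - 1 - e) := by
      intro e he
      rw [Finset.mem_range] at he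
      have hlt : N - 1 - e < N := by omega
      refine ih (N - 1 - e) hlt (by omega) (Function.update S j (S j * p ^ (e + 1))) _ ?_
      intro a ha
      rw [Finset.mem_filter] at ha
      obtain ⟨ha, hae⟩ := ha
      obtain ⟨hpos, hsys, b, hab, hcop, hrough, hΩ⟩ := hF a ha
      have h1 := hpb a ha b hab hcop
      have hbj : b j ≠ 0 := by
        intro h0
        have := hpos j
        rw [hab j, h0] at this
        simp at this
      have hSj : S j ≠ 0 := by
        intro h0
        have := hpos j
        rw [hab j, h0] at this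
        simp at this
      have h3 : (a j).factorization p = (b j).factorization p := by
        rw [hab j, Nat.factorization_mul hSj hbj, Finsupp.add_apply]
        have : (S j).factorization p = 0 := by
          apply Nat.factorization_eq_zero_of_not_dvd
          intro hps
          exact hpp.one_lt.ne' (Nat.eq_one_of_dvd_coprimes (hcop j) hps h1)
        rw [this, zero_add]
      have h6 : 0 < (b j).factorization p := hpp.factorization_pos_of_dvd hbj h1
      have h7 : (b j).factorization p = e + 1 := by omega
      have h8 : p ^ (e + 1) * (b j / p ^ (e + 1)) = b j := by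
        have := Nat.ordProj_mul_ordCompl_eq_self (b j) p
        rw [h7] at this
        exact this
      have h9 : Nat.Coprime (p ^ (e + 1)) (b j / p ^ (e + 1)) := by
        have := Nat.coprime_ordCompl hpp hbj
        rw [h7] at this
        exact this.pow_left _
      have hc0 : b j / p ^ (e + 1) ≠ 0 := by
        intro h0
        rw [h0, mul_zero] at h8
        exact hbj h8.symm
      refine ⟨hpos, hsys, Function.update b j (b j / p ^ (e + 1)), ?_, ?_, ?_, ?_⟩
      · intro k
        by_cases hk : k = j
        · subst hk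
          rw [Function.update_self, Function.update_self, mul_assoc, h8, hab j]
        · rw [Function.update_of_ne hk, Function.update_of_ne hk, hab k]
      · intro k
        by_cases hk : k = j
        · subst hk
          rw [Function.update_self, Function.update_self]
          refine Nat.Coprime.mul_left ?_ h9
          exact (hcop j).coprime_dvd_right (Nat.div_dvd_of_dvd (Dvd.intro _ h8))
        · rw [Function.update_of_ne hk, Function.update_of_ne hk]
          exact hcop k
      · intro k q hq hqk
        by_cases hk : k = j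
        · subst hk
          rw [Function.update_self] at hqk
          exact hrough j q hq (hqk.trans (Nat.div_dvd_of_dvd (Dvd.intro _ h8)))
        · rw [Function.update_of_ne hk] at hqk
          exact hrough k q hq hqk
      · have h10 : cardFactors (b j) = (e + 1) + cardFactors (b j / p ^ (e + 1)) := by
          conv_lhs => rw [← h8]
          rw [cardFactors_mul (pow_ne_zero _ hpp.ne_zero) hc0, cardFactors_apply_prime_pow hpp]
        have h11 : ∑ k, cardFactors (b k) =
            cardFactors (b j) + ∑ k ∈ Finset.univ.erase j, cardFactors (b k) :=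
          (Finset.add_sum_erase _ _ (Finset.mem_univ j)).symm
        have h12 : ∑ k, cardFactors (Function.update b j (b j / p ^ (e + 1)) k) =
            cardFactors (b j / p ^ (e + 1)) + ∑ k ∈ Finset.univ.erase j, cardFactors (b k) := by
          rw [← Finset.add_sum_erase _ _ (Finset.mem_univ j), Function.update_self]
          congr 1
          refine Finset.sum_congr rfl (fun k hk => ?_)
          rw [Function.update_of_ne (Finset.ne_of_mem_erase hk)]
        rw [h12]
        omega
    calc ∑ e ∈ Finset.range N, (F.filter (fun a => (a j).factorization p - 1 = e)).card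
        ≤ ∑ e ∈ Finset.range N, 2 ^ (N - 1 - e) := Finset.sum_le_sum hbound
      _ = ∑ e ∈ Finset.range N, 2 ^ e := Finset.sum_range_reflect (fun e => 2 ^ e) N
      _ ≤ 2 ^ N := (Nat.geomSum_lt le_rfl (fun k hk => Finset.mem_range.1 hk)).le

end Pool.Agent.Lib.MP_cb354f_nt
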