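import Mathlib

/-!
The number of the numbers with given sets of primes.
-/

namespace Pool.Agent.Lib.MP_cb354f_nt

open ArithmeticFunction

/-- The part of `a` composed of the primes with the property `Q`. -/
noncomputable def part (Q : ℕ → Prop) [DecidablePred Q] (a : ℕ) : ℕ :=
  (a.factorization.filter Q).prod (fun p e => p ^ e)

theorem part_factorization (Q : ℕ → Prop) [DecidablePred Q] (a : ℕ) :
    (part Q a).factorization = a.factorization.filter Q := by
  refine Nat.prod_pow_factorization_eq_self ?_
  intro p hp
  rw [Finsupp.support_filter, Finset.mem_filter] at hp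
  exact Nat.prime_of_mem_primeFactors hp.1

theorem part_ne_zero (Q : ℕ → Prop) [DecidablePred Q] (a : ℕ) : part Q a ≠ 0 := by
  unfold part
  rw [Finsupp.prod, Finset.prod_ne_zero_iff]
  intro p hp
  rw [Finsupp.support_filter, Finset.mem_filter] at hp
  exact pow_ne_zero _ (Nat.prime_of_mem_primeFactors hp.1).ne_zero

theorem part_primeFactors (Q : ℕ → Prop) [DecidablePred Q] (a : ℕ) :
    (part Q a).primeFactors = a.primeFactors.filter Q := by
  rw [← Nat.support_factorization, part_factorization, Finsupp.support_filter,
    Nat.support_factorization]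

theorem part_mul (Q : ℕ → Prop) [DecidablePred Q] {a : ℕ} (ha : a ≠ 0) :
    part Q a * part (fun p => ¬ Q p) a = a := by
  apply Nat.eq_of_factorization_eq (mul_ne_zero (part_ne_zero _ _) (part_ne_zero _ _)) ha
  intro p
  rw [Nat.factorization_mul (part_ne_zero _ _) (part_ne_zero _ _), part_factorization,
    part_factorization, Finsupp.filter_add_filter_not]

theorem part_coprime (Q R : ℕ → Prop) [DecidablePred Q] [DecidablePred R]
    (hQR : ∀ p, Q p → ¬ R p) (a b : ℕ) : Nat.Coprime (part Q a) (part R b) := by
  rw [← Nat.disjoint_primeFactors (part_ne_zero _ _) (part_ne_zero _ _), part_primeFactors,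
    part_primeFactors, Finset.disjoint_left]
  intro p h1 h2
  rw [Finset.mem_filter] at h1 h2
  exact hQR p h1.2 h2.2

/-- Numbers with primes in `P` and exponents at most `L`. -/
theorem card_le_pow (P : Finset ℕ) (L : ℕ) (F : Finset ℕ)
    (hF : ∀ a ∈ F, a ≠ 0 ∧ a.primeFactors ⊆ P ∧ ∀ p, a.factorization p ≤ L) :
    F.card ≤ (L + 1) ^ P.card := by
  have h1 : F.card ≤ (Fintype.piFinset (fun _ : P => Finset.range (L + 1))).card := by
    refine Finset.card_le_card_of_injOn (fun a (p : P) => a.factorization p) ?_ ?_
    · intro a ha
      rw [Finset.mem_coe, Fintype.mem_piFinset]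
      intro p
      rw [Finset.mem_range]
      exact Nat.lt_succ_of_le ((hF a ha).2.2 p)
    · intro a ha b hb hab
      apply Nat.eq_of_factorization_eq (hF a ha).1 (hF b hb).1
      intro p
      by_cases hp : p ∈ P
      · exact congrFun hab ⟨p, hp⟩
      · have e1 : a.factorization p = 0 := by
          rw [← Finsupp.notMem_support_iff, Nat.support_factorization]
          exact fun h => hp ((hF a ha).2.1 h)
        have e2 : b.factorization p = 0 := by
          rw [← Finsupp.notMem_support_iff, Nat.support_factorization]
          exact fun h => hp ((hF b hb).2.1 h)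
        rw [e1, e2]
  refine h1.trans ?_
  rw [Fintype.card_piFinset]
  simp

/-- Numbers with primes in `P` and at most `k` prime factors. -/
theorem card_le_two_pow (P : Finset ℕ) : ∀ (k : ℕ) (F : Finset ℕ),
    (∀ a ∈ F, a ≠ 0 ∧ a.primeFactors ⊆ P ∧ cardFactors a ≤ k) → F.card ≤ 2 ^ (P.card + k) := by
  induction P using Finset.induction_on with
  | empty =>
    intro k F hF
    have h1 : F.card ≤ 1 := by
      rw [Finset.card_le_one]
      intro a ha b hb
      have e1 : a = 1 := by
        have h := (hF a ha).2.1
        rw [Finset.subset_empty, Nat.primeFactors_eq_empty] at h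
        rcases h with h | h
        · exact absurd h (hF a ha).1
        · exact h
      have e2 : b = 1 := by
        have h := (hF b hb).2.1
        rw [Finset.subset_empty, Nat.primeFactors_eq_empty] at h
        rcases h with h | h
        · exact absurd h (hF b hb).1
        · exact h
      rw [e1, e2]
    exact h1.trans Nat.one_le_two_pow
  | insert p P hp ih =>
    intro k F hF
    have hfib : ∀ a ∈ F, a.factorization p ∈ Finset.range (k + 1) := by
      intro a ha
      have h4 : a.factorization p ≤ cardFactors a := by
        rw [cardFactors_eq_sum_factorization]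
        by_cases hmem : p ∈ a.factorization.support
        · exact Finset.single_le_sum (f := fun q => a.factorization q)
            (fun _ _ => Nat.zero_le _) hmem
        · rw [Finsupp.notMem_support_iff.1 hmem]; exact Nat.zero_le _
      rw [Finset.mem_range]
      exact Nat.lt_succ_of_le (h4.trans (hF a ha).2.2)
    rw [Finset.card_eq_sum_card_fiberwise hfib]
    have hbound : ∀ e ∈ Finset.range (k + 1),
        (F.filter (fun a => a.factorization p = e)).card ≤ 2 ^ P.card * 2 ^ (k + 1 - 1 - e) := by
      intro e he
      rw [Finset.mem_range] at he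
      have key : ∀ a ∈ F.filter (fun a => a.factorization p = e), p ^ e * (a / p ^ e) = a := by
        intro a ha
        rw [Finset.mem_filter] at ha
        have := Nat.ordProj_mul_ordCompl_eq_self a p
        rw [ha.2] at this
        exact this
      have h1 : (F.filter (fun a => a.factorization p = e)).card =
          ((F.filter (fun a => a.factorization p = e)).image (fun a => a / p ^ e)).card := by
        rw [Finset.card_image_of_injOn]
        intro a ha b hb hab
        rw [← key a ha, ← key b hb]
        simp only at hab
        rw [hab]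
      rw [h1, ← pow_add]
      refine (ih (k - e) _ ?_).trans (le_of_eq (by congr 2))
      intro c hc
      rw [Finset.mem_image] at hc
      obtain ⟨a, ha, rfl⟩ := hc
      have hk := key a ha
      rw [Finset.mem_filter] at ha
      obtain ⟨ha, hae⟩ := ha
      obtain ⟨ha0, haP, hak⟩ := hF a ha
      have hc0 : a / p ^ e ≠ 0 := by
        intro h0
        rw [h0, mul_zero] at hk
        exact ha0 hk.symm
      have hpe0 : p ^ e ≠ 0 := by
        intro h0
        rw [h0, zero_mul] at hk
        exact ha0 hk.symm
      refine ⟨hc0, ?_, ?_⟩
      · intro q hq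
        rw [Nat.mem_primeFactors] at hq
        have hqa : q ∣ a := hq.2.1.trans (Dvd.intro_left _ hk)
        have := haP (Nat.mem_primeFactors.2 ⟨hq.1, hqa, ha0⟩)
        rw [Finset.mem_insert] at this
        rcases this with rfl | h
        · exfalso
          have hcop := Nat.coprime_ordCompl hq.1 ha0
          rw [hae] at hcop
          exact hq.1.one_lt.ne' (Nat.eq_one_of_dvd_coprimes hcop dvd_rfl hq.2.1)
        · exact h
      · have hmul : cardFactors a = cardFactors (p ^ e) + cardFactors (a / p ^ e) := by
          conv_lhs => rw [← hk]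
          rw [cardFactors_mul hpe0 hc0]
        have hle : e ≤ cardFactors (p ^ e) := by
          rcases Nat.eq_zero_or_pos e with rfl | hepos
          · simp
          · have hpp : p.Prime := by
              by_contra hcon
              have := Nat.factorization_eq_zero_of_not_prime a hcon
              omega
            rw [cardFactors_apply_prime_pow hpp]
        omega
    calc ∑ e ∈ Finset.range (k + 1), (F.filter (fun a => a.factorization p = e)).card
        ≤ ∑ e ∈ Finset.range (k + 1), 2 ^ P.card * 2 ^ (k + 1 - 1 - e) := Finset.sum_le_sum hbound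
      _ = 2 ^ P.card * ∑ e ∈ Finset.range (k + 1), 2 ^ e := by
          rw [← Finset.mul_sum, Finset.sum_range_reflect (fun e => 2 ^ e) (k + 1)]
      _ ≤ 2 ^ P.card * 2 ^ (k + 1) :=
          Nat.mul_le_mul_left _ (Nat.geomSum_lt le_rfl (fun k hk => Finset.mem_range.1 hk)).le
      _ = 2 ^ ((insert p P).card + k) := by
          rw [Finset.card_insert_of_notMem hp, ← pow_add]
          congr 1
          ring

/-- Numbers without prime factors below `w` have few prime factors. -/
theorem pow_cardFactors_le (w : ℕ) : ∀ b : ℕ, 0 < b → (∀ p, p.Prime → p ∣ b → w ≤ p) →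
    w ^ cardFactors b ≤ b := by
  intro b
  refine induction_on_primes (motive := fun b => 0 < b → (∀ p, p.Prime → p ∣ b → w ≤ p) →
    w ^ cardFactors b ≤ b) ?_ ?_ ?_ b
  · intro h
    exact absurd h (lt_irrefl 0)
  · intro _ _
    simp
  · intro p a hp ih hpos hall
    have ha : 0 < a := by
      rcases Nat.eq_zero_or_pos a with rfl | h'
      · simp at hpos
      · exact h'
    have h1 := ih ha (fun q hq hqa => hall q hq (hqa.mul_left p))
    have hyp : w ≤ p := hall p hp (Dvd.intro a rfl)
    have hΩ : cardFactors (p * a) = cardFactors a + 1 := by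
      rw [cardFactors_mul hp.ne_zero ha.ne', cardFactors_apply_prime hp, add_comm]
    rw [hΩ, pow_succ, mul_comm p a]
    exact Nat.mul_le_mul h1 hyp

/-- The number of the `y`-smooth numbers up to `X` is small. -/
theorem card_smooth_le (w y X : ℕ) (hw : 2 ≤ w) (F : Finset ℕ)
    (hF : ∀ a ∈ F, a ≠ 0 ∧ a ≤ X ∧ ∀ p ∈ a.primeFactors, p ≤ y) :
    F.card ≤ (Nat.log 2 X + 1) ^ w * 2 ^ (Nat.primeCounting y + Nat.log w X) := by
  classical
  rcases Nat.eq_zero_or_pos X with rfl | hX
  · have : F = ∅ := by
      rw [Finset.eq_empty_iff_forall_notMem]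
      intro a ha
      have := hF a ha
      omega
    rw [this]; simp
  set Q : ℕ → Prop := fun p => p < w with hQ
  set F1 := F.image (part Q) with hF1
  set F2 := F.image (part (fun p => ¬ Q p)) with hF2
  have h1 : F.card ≤ (F1 ×ˢ F2).card := by
    refine Finset.card_le_card_of_injOn (fun a => (part Q a, part (fun p => ¬ Q p) a)) ?_ ?_
    · intro a ha
      rw [Finset.mem_coe, Finset.mem_product]
      exact ⟨Finset.mem_image_of_mem _ ha, Finset.mem_image_of_mem _ ha⟩
    · intro a ha b hb hab
      simp only [Prod.mk.injEq] at hab
      rw [← part_mul Q (hF a ha).1, ← part_mul Q (hF b hb).1, hab.1, hab.2]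
  have h2 : F1.card ≤ (Nat.log 2 X + 1) ^ w := by
    have := card_le_pow (Finset.range w) (Nat.log 2 X) F1 ?_
    · rwa [Finset.card_range] at this
    · intro c hc
      rw [hF1, Finset.mem_image] at hc
      obtain ⟨a, ha, rfl⟩ := hc
      refine ⟨part_ne_zero _ _, ?_, ?_⟩
      · intro p hp
        rw [part_primeFactors, Finset.mem_filter] at hp
        exact Finset.mem_range.2 hp.2
      · intro p
        rw [part_factorization, Finsupp.filter_apply]
        split_ifs with hpQ
        · by_cases hpp : p.Prime
          · apply Nat.le_log_of_pow_le one_lt_two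
            calc 2 ^ a.factorization p ≤ p ^ a.factorization p :=
                  Nat.pow_le_pow_left hpp.two_le _
              _ ≤ a := Nat.ordProj_le p (hF a ha).1
              _ ≤ X := (hF a ha).2.1
          · rw [Nat.factorization_eq_zero_of_not_prime a hpp]; exact Nat.zero_le _
        · exact Nat.zero_le _
  have h3 : F2.card ≤ 2 ^ (Nat.primeCounting y + Nat.log w X) := by
    have := card_le_two_pow ((Finset.range (y + 1)).filter Nat.Prime) (Nat.log w X) F2 ?_
    · rwa [← Nat.primesBelow, Nat.primesBelow_card_eq_primeCounting'] at this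
    · intro c hc
      rw [hF2, Finset.mem_image] at hc
      obtain ⟨a, ha, rfl⟩ := hc
      refine ⟨part_ne_zero _ _, ?_, ?_⟩
      · intro p hp
        rw [part_primeFactors, Finset.mem_filter] at hp
        rw [Finset.mem_filter, Finset.mem_range]
        exact ⟨Nat.lt_succ_of_le ((hF a ha).2.2 p hp.1), Nat.prime_of_mem_primeFactors hp.1⟩
      · apply Nat.le_log_of_pow_le (by omega)
        refine (pow_cardFactors_le w _ (Nat.pos_of_ne_zero (part_ne_zero _ _)) ?_).trans ?_
        · intro p hp hpa
          have hmem : p ∈ (part (fun p => ¬ Q p) a).primeFactors :=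
            Nat.mem_primeFactors.2 ⟨hp, hpa, part_ne_zero _ _⟩
          rw [part_primeFactors, Finset.mem_filter] at hmem
          exact Nat.le_of_not_lt hmem.2
        · exact (Nat.le_of_dvd (Nat.pos_of_ne_zero (hF a ha).1)
            (Dvd.intro_left _ (part_mul Q (hF a ha).1))).trans (hF a ha).2.1
  calc F.card ≤ F1.card * F2.card := by rw [← Finset.card_product]; exact h1
    _ ≤ _ := Nat.mul_le_mul h2 h3

end Pool.Agent.Lib.MP_cb354f_nt
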