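import Pool.Agent.Lib.MP_cb354f_nt.Core
import Pool.Agent.Lib.MP_cb354f_nt.Smooth

/-!
The number of the solutions of `σ^m(n) = k n` with all iterates at most `X`.
-/

namespace Pool.Agent.Lib.MP_cb354f_nt

open ArithmeticFunction

/-- The number of the solutions of the cyclic system with all entries at most `X`. -/
theorem count_system {ι : Type} [Fintype ι] [DecidableEq ι] (nxt : Equiv.Perm ι) (κ : ι → ℕ)
    {w y X : ℕ} (hw : 2 ≤ w) (hy : 2 ≤ y)
    (h2 : (y + 1) ^ (Fintype.card ι * Nat.log y X) < 2 * y ^ (Fintype.card ι * Nat.log y X))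
    (F : Finset (ι → ℕ)) (hF : ∀ a ∈ F, (∀ i, 0 < a i ∧ a i ≤ X) ∧
      ∀ i, sigma 1 (a i) = κ i * a (nxt i)) :
    F.card ≤ ((Nat.log 2 X + 1) ^ w * 2 ^ (Nat.primeCounting y + Nat.log w X)) ^ (Fintype.card ι) *
      2 ^ (Fintype.card ι * Nat.log y X) := by
  classical
  set Q : ℕ → Prop := fun p => p ≤ y with hQ
  set sm : (ι → ℕ) → (ι → ℕ) := fun a i => part Q (a i) with hsm
  set D : Finset ℕ := (Finset.range (X + 1)).filter (fun a => a ≠ 0 ∧ ∀ p ∈ a.primeFactors, p ≤ y)
    with hD
  have hDcard : D.card ≤ (Nat.log 2 X + 1) ^ w * 2 ^ (Nat.primeCounting y + Nat.log w X) := by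
    apply card_smooth_le w y X hw
    intro a ha
    rw [hD, Finset.mem_filter, Finset.mem_range] at ha
    exact ⟨ha.2.1, Nat.lt_succ_iff.1 ha.1, ha.2.2⟩
  have himage : F.image sm ⊆ Fintype.piFinset (fun _ : ι => D) := by
    intro S hS
    rw [Finset.mem_image] at hS
    obtain ⟨a, ha, rfl⟩ := hS
    rw [Fintype.mem_piFinset]
    intro i
    rw [hD, Finset.mem_filter, Finset.mem_range]
    have h := (hF a ha).1 i
    refine ⟨?_, part_ne_zero _ _, ?_⟩
    · have := Nat.le_of_dvd h.1 (Dvd.intro _ (part_mul Q h.1.ne'))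
      have h' : sm a i = part Q (a i) := rfl
      rw [h']
      omega
    · intro p hp
      have h' : sm a i = part Q (a i) := rfl
      rw [h', part_primeFactors, Finset.mem_filter] at hp
      exact hp.2
  have hcard : (F.image sm).card ≤
      ((Nat.log 2 X + 1) ^ w * 2 ^ (Nat.primeCounting y + Nat.log w X)) ^ (Fintype.card ι) := by
    refine (Finset.card_le_card himage).trans ?_
    rw [Fintype.card_piFinset]
    simp only [Finset.prod_const, Finset.card_univ]
    exact Nat.pow_le_pow_left hDcard _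
  have hfib : ∀ S ∈ F.image sm, (F.filter (fun a => sm a = S)).card ≤
      2 ^ (Fintype.card ι * Nat.log y X) := by
    intro S _
    refine Core_count nxt κ (by omega) h2 _ le_rfl S _ ?_
    intro a ha
    rw [Finset.mem_filter] at ha
    obtain ⟨ha, haS⟩ := ha
    obtain ⟨h1, h3⟩ := hF a ha
    refine ⟨fun i => (h1 i).1, h3, fun i => part (fun p => ¬ Q p) (a i), ?_, ?_, ?_, ?_⟩
    · intro i
      rw [← haS]
      exact (part_mul Q (h1 i).1.ne').symm
    · intro i
      rw [← haS]
      exact part_coprime _ _ (fun p hp hn => hn hp) _ _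
    · intro i p hp hpi
      have hmem : p ∈ (part (fun p => ¬ Q p) (a i)).primeFactors :=
        Nat.mem_primeFactors.2 ⟨hp, hpi, part_ne_zero _ _⟩
      rw [part_primeFactors, Finset.mem_filter] at hmem
      exact Nat.lt_of_not_le hmem.2
    · refine (Finset.sum_le_card_nsmul Finset.univ _ (Nat.log y X) ?_).trans ?_
      · intro i _
        apply Nat.le_log_of_pow_le (by omega)
        refine (pow_cardFactors_le y _ (Nat.pos_of_ne_zero (part_ne_zero _ _)) ?_).trans ?_
        · intro p hp hpa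
          have hmem : p ∈ (part (fun p => ¬ Q p) (a i)).primeFactors :=
            Nat.mem_primeFactors.2 ⟨hp, hpa, part_ne_zero _ _⟩
          rw [part_primeFactors, Finset.mem_filter] at hmem
          exact (Nat.lt_of_not_le hmem.2).le
        · exact (Nat.le_of_dvd (h1 i).1
            (Dvd.intro_left _ (part_mul Q (h1 i).1.ne'))).trans (h1 i).2
      · rw [Finset.card_univ, smul_eq_mul]
  have := Finset.card_le_mul_card_image F _ hfib
  calc F.card ≤ 2 ^ (Fintype.card ι * Nat.log y X) * (F.image sm).card := this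
    _ ≤ 2 ^ (Fintype.card ι * Nat.log y X) *
        ((Nat.log 2 X + 1) ^ w * 2 ^ (Nat.primeCounting y + Nat.log w X)) ^ (Fintype.card ι) :=
        Nat.mul_le_mul_left _ hcard
    _ = _ := mul_comm _ _

/-- The number of the solutions of `σ^m(n) = k n` with all iterates at most `X`. -/
theorem count_iterate (m k : ℕ) {w y X : ℕ} (hw : 2 ≤ w) (hy : 2 ≤ y)
    (h2 : (y + 1) ^ ((m + 1) * Nat.log y X) < 2 * y ^ ((m + 1) * Nat.log y X))
    (F : Finset ℕ) (hF : ∀ n ∈ F, 0 < n ∧ (∀ i ≤ m, (sigma 1)^[i] n ≤ X) ∧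
      (sigma 1)^[m + 1] n = k * n) :
    F.card ≤ ((Nat.log 2 X + 1) ^ w * 2 ^ (Nat.primeCounting y + Nat.log w X)) ^ (m + 1) *
      2 ^ ((m + 1) * Nat.log y X) := by
  classical
  set V : ℕ → (Fin (m + 1) → ℕ) := fun n i => (sigma 1)^[(i : ℕ)] n with hV
  have hinj : Set.InjOn V F := by
    intro a _ b _ hab
    exact congrFun hab 0
  have h1 : F.card = (F.image V).card := (Finset.card_image_of_injOn hinj).symm
  rw [h1]
  have h3 := count_system (finRotate (m + 1)) (fun i : Fin (m + 1) => if i = Fin.last m then k else 1)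
    (w := w) (y := y) (X := X) hw hy (by rw [Fintype.card_fin]; exact h2) (F.image V) ?_
  · rw [Fintype.card_fin] at h3
    exact h3
  · intro a ha
    rw [Finset.mem_image] at ha
    obtain ⟨n, hn, rfl⟩ := ha
    obtain ⟨hpos, hle, hsys⟩ := hF n hn
    have hposi : ∀ i : ℕ, 0 < (sigma 1)^[i] n := by
      intro i
      induction i with
      | zero => exact hpos
      | succ i ih =>
        rw [Function.iterate_succ_apply']
        rw [sigma_one_apply]
        exact lt_of_lt_of_le ih (Finset.single_le_sum (f := fun d : ℕ => d)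
          (fun _ _ => Nat.zero_le _) (Nat.mem_divisors_self _ ih.ne'))
    refine ⟨fun i => ⟨hposi i, hle i (Nat.lt_succ_iff.1 i.2)⟩, ?_⟩
    intro i
    by_cases hi : i = Fin.last m
    · subst hi
      rw [if_pos rfl, finRotate_last]
      change sigma 1 ((sigma 1)^[((Fin.last m : Fin (m + 1)) : ℕ)] n) = k * (sigma 1)^[((0 : Fin (m + 1)) : ℕ)] n
      rw [← Function.iterate_succ_apply' (sigma 1), Fin.val_last, hsys]
      rfl
    · rw [if_neg hi, one_mul]
      change sigma 1 ((sigma 1)^[(i : ℕ)] n) = (sigma 1)^[((finRotate (m + 1) i : Fin (m + 1)) : ℕ)] n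
      rw [← Function.iterate_succ_apply' (sigma 1), coe_finRotate_of_ne_last hi]

end Pool.Agent.Lib.MP_cb354f_nt
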